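import Mathlib

set_option autoImplicit false

open Set Topology

namespace Pool.Agent.N490.HD

/-- the intersection of a nonempty chain of compact connected sets is connected -/
theorem isPreconnected_sInter_chain {X : Type*} [TopologicalSpace X] [CompactSpace X] [T2Space X]
    {c : Set (Set X)} (hne : c.Nonempty) (hch : IsChain (· ⊆ ·) c)
    (hcl : ∀ K ∈ c, IsClosed K) (hconn : ∀ K ∈ c, IsPreconnected K) :
    IsPreconnected (⋂₀ c) := by
  have hclI : IsClosed (⋂₀ c) := isClosed_sInter hcl
  have : Nonempty c := hne.to_subtype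
  have hdir : Directed (· ⊇ ·) (fun K : c => (K : Set X)) := by
    intro A B
    rcases hch.total A.2 B.2 with h | h
    · exact ⟨A, Subset.rfl, h⟩
    · exact ⟨B, h, Subset.rfl⟩
  rw [isPreconnected_iff_subset_of_fully_disjoint_closed hclI]
  intro a b ha hb hab hdisj
  obtain ⟨u, v, hu, hv, hau, hbv, huv⟩ := (SeparatedNhds.of_isCompact_isCompact ha.isCompact hb.isCompact hdisj)
  -- some member of the chain lies in u ∪ v
  have hex : ∃ K ∈ c, K ⊆ u ∪ v := by
    by_contra hcon
    push Not at hcon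
    have hdir' : Directed (· ⊇ ·) (fun K : c => (K : Set X) ∩ (u ∪ v)ᶜ) := by
      intro A B
      obtain ⟨C, h1, h2⟩ := hdir A B
      exact ⟨C, inter_subset_inter_left _ h1, inter_subset_inter_left _ h2⟩
    have hcl' : ∀ K : c, IsClosed ((K : Set X) ∩ (u ∪ v)ᶜ) := fun K =>
      (hcl K K.2).inter (hu.union hv).isClosed_compl
    obtain ⟨x, hx⟩ := IsCompact.nonempty_iInter_of_directed_nonempty_isCompact_isClosed
      (fun K : c => (K : Set X) ∩ (u ∪ v)ᶜ) hdir'
      (fun K => by
        obtain ⟨x, hx, hx'⟩ := not_subset.1 (hcon K K.2)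
        exact ⟨x, hx, hx'⟩) (fun K => (hcl' K).isCompact) hcl'
    have hx' := mem_iInter.1 hx
    have hxI : x ∈ ⋂₀ c := fun K hK => (hx' ⟨K, hK⟩).1
    obtain ⟨K0, hK0⟩ := hne
    have hxo := (hx' ⟨K0, hK0⟩).2
    rcases hab hxI with h | h
    · exact hxo (Or.inl (hau h))
    · exact hxo (Or.inr (hbv h))
  obtain ⟨K, hK, hKuv⟩ := hex
  have hKpre := hconn K hK
  have hIK : ⋂₀ c ⊆ K := sInter_subset_of_mem hK
  rcases (isPreconnected_iff_subset_of_disjoint.1 hKpre) u v hu hv hKuv
    (by rw [huv.inter_eq, inter_empty]) with h | h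
  · left
    intro x hx
    rcases hab hx with h1 | h1
    · exact h1
    · exact absurd (hbv h1) (disjoint_left.1 huv (h (hIK hx)))
  · right
    intro x hx
    rcases hab hx with h1 | h1
    · exact absurd (h (hIK hx)) (disjoint_left.1 huv (hau h1))
    · exact h1

/-- Let `f` be continuous and `K` a compact connected set. There is a minimal closed connected
subset of `K` with the same image. -/
theorem exists_minimal {X Y : Type*} [TopologicalSpace X] [CompactSpace X] [T2Space X]
    [TopologicalSpace Y] [T2Space Y] {f : X → Y} (hf : Continuous f) {K : Set X}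
    (hK : IsClosed K) (hKc : IsConnected K) :
    ∃ L : Set X, L ⊆ K ∧ IsClosed L ∧ IsConnected L ∧ f '' L = f '' K ∧
      ∀ M : Set X, M ⊆ L → IsClosed M → IsConnected M → f '' M = f '' K → M = L := by
  let S : Set (Set X) := {L | IsClosed L ∧ IsConnected L ∧ f '' L = f '' K}
  have hKS : K ∈ S := ⟨hK, hKc, rfl⟩
  obtain ⟨L, hLK, hLmin⟩ := zorn_superset_nonempty S (by
    intro c hcS hch hne
    have : Nonempty c := hne.to_subtype
    have hdir : Directed (· ⊇ ·) (fun K : c => (K : Set X)) := by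
      intro A B
      rcases hch.total A.2 B.2 with h | h
      · exact ⟨A, Subset.rfl, h⟩
      · exact ⟨B, h, Subset.rfl⟩
    have himg : f '' (⋂₀ c) = f '' K := by
      apply Subset.antisymm
      · obtain ⟨M, hM⟩ := hne
        rw [← (hcS hM).2.2]
        exact image_mono (sInter_subset_of_mem hM)
      · intro y hy
        have hdir' : Directed (· ⊇ ·) (fun M : c => (M : Set X) ∩ f ⁻¹' {y}) := by
          intro A B
          obtain ⟨C, h1, h2⟩ := hdir A B
          exact ⟨C, inter_subset_inter_left _ h1, inter_subset_inter_left _ h2⟩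
        have hcl' : ∀ M : c, IsClosed ((M : Set X) ∩ f ⁻¹' {y}) := fun M =>
          (hcS M.2).1.inter (isClosed_singleton.preimage hf)
        obtain ⟨x, hx⟩ := IsCompact.nonempty_iInter_of_directed_nonempty_isCompact_isClosed
          (fun M : c => (M : Set X) ∩ f ⁻¹' {y}) hdir'
          (fun M => by
            have : y ∈ f '' M := by rw [(hcS M.2).2.2]; exact hy
            obtain ⟨x, hx, hxy⟩ := this
            exact ⟨x, hx, hxy⟩) (fun M => (hcl' M).isCompact) hcl'
        have hx' := mem_iInter.1 hx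
        obtain ⟨M0, hM0⟩ := hne
        exact ⟨x, fun M hM => (hx' ⟨M, hM⟩).1, (hx' ⟨M0, hM0⟩).2⟩
    refine ⟨⋂₀ c, ⟨isClosed_sInter fun M hM => (hcS hM).1, ⟨?_, ?_⟩, himg⟩, fun M hM =>
      sInter_subset_of_mem hM⟩
    · obtain ⟨x, hx⟩ := hKc.nonempty
      have : f x ∈ f '' (⋂₀ c) := by rw [himg]; exact ⟨x, hx, rfl⟩
      obtain ⟨z, hz, -⟩ := this
      exact ⟨z, hz⟩
    · exact isPreconnected_sInter_chain hne hch (fun M hM => (hcS hM).1)
        (fun M hM => (hcS hM).2.1.isPreconnected)) K hKS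
  refine ⟨L, hLK, hLmin.prop.1, hLmin.prop.2.1, hLmin.prop.2.2, ?_⟩
  intro M hML hM hMc hMi
  exact Subset.antisymm hML (hLmin.le_of_le ⟨hM, hMc, hMi⟩ hML)

end Pool.Agent.N490.HD
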