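import Pool.Agent.N804.PV.Def

/-!
# Project PV, part 6: the window error of `ψ` from the variance of the primes (helper490)
-/

set_option autoImplicit false

open Filter Topology Set MeasureTheory

namespace Pool.Agent.N490.PV6

open Pool.Agent.N804.PV

/-- the error in the interval `(x, x + x / T]` -/
noncomputable def D (T x : ℝ) : ℝ := Chebyshev.psi (x + x / T) - Chebyshev.psi x - x / T

lemma D_meas (T : ℝ) : Measurable (D T) := by
  unfold D
  have h1 : Measurable Chebyshev.psi := Chebyshev.psi_mono.measurable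
  exact ((h1.comp (by fun_prop)).sub h1).sub (by fun_prop)

/-- a crude bound -/
lemma D_bd {T : ℝ} (hT : 1 ≤ T) {x b : ℝ} (hx : 0 ≤ x) (hb : x ≤ b) : |D T x| ≤ 20 * b := by
  have hT0 : 0 < T := by linarith
  have h1 : x / T ≤ x := div_le_self hx hT
  have h0 : 0 ≤ x / T := by positivity
  have h2 := Chebyshev.psi_le_const_mul_self (show 0 ≤ x + x / T by linarith)
  have h3 := Chebyshev.psi_nonneg x
  have h4 : Chebyshev.psi x ≤ Chebyshev.psi (x + x / T) := Chebyshev.psi_mono (by linarith)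
  have h5 : Real.log 4 + 4 ≤ 6 := by
    have : Real.log 4 ≤ 4 - 1 := Real.log_le_sub_one_of_pos (by norm_num)
    have h6 : Real.log 4 = 2 * Real.log 2 := by
      rw [show (4:ℝ) = 2 ^ 2 by norm_num, Real.log_pow]; norm_num
    have := Real.log_two_lt_d9
    linarith
  have h6 : (Real.log 4 + 4) * (x + x / T) ≤ 6 * (x + x / T) := mul_le_mul_of_nonneg_right h5 (by linarith)
  unfold D
  rw [abs_le]
  constructor <;> linarith

lemma D_int {T : ℝ} (hT : 1 ≤ T) {a b : ℝ} (ha : 0 ≤ a) (hab : a ≤ b) (g : ℝ → ℝ)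
    (hg : ContinuousOn g (Icc a b)) : IntervalIntegrable (fun x => D T x ^ 2 * g x) volume a b := by
  rw [intervalIntegrable_iff_integrableOn_Ioc_of_le hab]
  have h1 : IntegrableOn g (Ioc a b) := (hg.integrableOn_Icc).mono_set Ioc_subset_Icc_self
  refine Integrable.bdd_mul (c := (20 * b) ^ 2) h1 ((D_meas T).pow_const 2).aestronglyMeasurable ?_
  rw [ae_restrict_iff' measurableSet_Ioc]
  refine Filter.Eventually.of_forall fun x hx => ?_
  rw [norm_pow, Real.norm_eq_abs]
  exact pow_le_pow_left₀ (abs_nonneg _) (D_bd hT (ha.trans hx.1.le) hx.2) 2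

lemma D_int2 {T : ℝ} (hT : 1 ≤ T) {a b : ℝ} (ha : 0 < a) (hab : a ≤ b) :
    IntervalIntegrable (fun x => D T x ^ 2 / x ^ 2) volume a b := by
  have h := D_int hT ha.le hab (fun x => (x ^ 2)⁻¹) (by
    apply ContinuousOn.inv₀ (by fun_prop)
    intro x hx
    have : 0 < x := lt_of_lt_of_le ha hx.1
    positivity)
  simpa [div_eq_mul_inv] using h

lemma D_int1 {T : ℝ} (hT : 1 ≤ T) {a b : ℝ} (ha : 0 ≤ a) (hab : a ≤ b) :
    IntervalIntegrable (fun x => |D T x|) volume a b := by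
  rw [intervalIntegrable_iff_integrableOn_Ioc_of_le hab]
  have h1 : IntegrableOn (fun _ : ℝ => (1:ℝ)) (Ioc a b) := by
    exact integrableOn_const (by simp)
  have h2 : IntegrableOn (fun x => |D T x| * 1) (Ioc a b) := by
    refine Integrable.bdd_mul (c := 20 * b) h1 ((D_meas T).abs).aestronglyMeasurable ?_
    rw [ae_restrict_iff' measurableSet_Ioc]
    refine Filter.Eventually.of_forall fun x hx => ?_
    rw [Real.norm_eq_abs, abs_abs]
    exact D_bd hT (ha.trans hx.1.le) hx.2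
  simpa using h2

lemma D_int1' {T Q : ℝ} (hT : 1 ≤ T) {a b : ℝ} (ha : 0 ≤ a) (hab : a ≤ b) (hQ : 1 ≤ Q) :
    IntervalIntegrable (fun x => |D T (x / Q)|) volume a b := by
  rw [intervalIntegrable_iff_integrableOn_Ioc_of_le hab]
  have h1 : IntegrableOn (fun _ : ℝ => (1:ℝ)) (Ioc a b) := by
    exact integrableOn_const (by simp)
  have h2 : IntegrableOn (fun x => |D T (x / Q)| * 1) (Ioc a b) := by
    refine Integrable.bdd_mul (c := 20 * b) h1
      (((D_meas T).comp (by fun_prop : Measurable fun x : ℝ => x / Q)).abs).aestronglyMeasurable ?_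
    rw [ae_restrict_iff' measurableSet_Ioc]
    refine Filter.Eventually.of_forall fun x hx => ?_
    have hx0 : 0 ≤ x := ha.trans hx.1.le
    have hxb : x / Q ≤ x := div_le_self hx0 hQ
    rw [Real.norm_eq_abs, abs_abs]
    exact D_bd hT (div_nonneg hx0 (by linarith)) (hxb.trans hx.2)
  simpa using h2

/-- the variance, not normalised -/
noncomputable def IV (T a b : ℝ) : ℝ := ∫ x in a..b, D T x ^ 2 / x ^ 2

lemma GV_eq (T u v : ℝ) : GV T u v = T / Real.log T ^ 2 * IV T (T ^ u) (T ^ v) := rfl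

lemma GV_add {T : ℝ} (hT : 1 ≤ T) {u v w : ℝ} (huv : u ≤ v) (hvw : v ≤ w) :
    GV T u v + GV T v w = GV T u w := by
  have h0 : 0 < T := by linarith
  rw [GV_eq, GV_eq, GV_eq, ← mul_add]
  congr 1
  unfold IV
  apply intervalIntegral.integral_add_adjacent_intervals
  · exact D_int2 hT (by positivity) (Real.rpow_le_rpow_of_exponent_le hT huv)
  · exact D_int2 hT (by positivity) (Real.rpow_le_rpow_of_exponent_le hT hvw)

/-- the variance is bounded on the whole range -/
lemma whole {δ : ℝ} (hδ : 0 < δ) (n : ℕ) : ∀ b : ℝ, b ≤ 1 + n * δ → 1 < b →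
    (∀ k : ℕ, 1 < b - k * δ → ∃ C T0 : ℝ, ∀ T : ℝ, T0 ≤ T → GV T (max 1 (b - k * δ - δ)) (b - k * δ) ≤ C) →
    ∃ C T0 : ℝ, ∀ T : ℝ, T0 ≤ T → GV T 1 b ≤ C := by
  induction n with
  | zero =>
    intro b h1 h2
    exfalso
    simp at h1
    linarith
  | succ n ih =>
    intro b h1 h2 h3
    obtain ⟨C, T0, hC⟩ := h3 0 (by simpa using h2)
    simp only [Nat.cast_zero, zero_mul, sub_zero] at hC
    rcases le_or_gt (b - δ) 1 with h | h
    · rw [max_eq_left h] at hC
      exact ⟨C, T0, hC⟩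
    · rw [max_eq_right h.le] at hC
      obtain ⟨C', T0', hC'⟩ := ih (b - δ) (by push_cast at h1; linarith) h (by
        intro k hk
        have h4 := h3 (k + 1) (by push_cast; linarith)
        have e1 : b - δ - k * δ = b - ((k + 1 : ℕ) : ℝ) * δ := by push_cast; ring
        rw [e1]
        exact h4)
      refine ⟨C' + C, max 1 (max T0 T0'), fun T hT => ?_⟩
      have hT1 : 1 ≤ T := (le_max_left _ _).trans hT
      have hT2 : T0 ≤ T := (le_max_left _ _).trans ((le_max_right _ _).trans hT)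
      have hT3 : T0' ≤ T := (le_max_right _ _).trans ((le_max_right _ _).trans hT)
      rw [← GV_add hT1 h.le (by linarith : b - δ ≤ b)]
      exact add_le_add (hC' T hT3) (hC T hT2)

/-- good exponents are arbitrarily large -/
lemma exists_b {δ : ℝ} (hδ : 0 < δ)
    (h : ∀ᵐ b : ℝ, 1 < b → ∃ C T0 : ℝ, ∀ T : ℝ, T0 ≤ T → GV T (max 1 (b - δ)) b ≤ C) (B : ℝ) :
    ∃ b : ℝ, B < b ∧ 1 < b ∧ ∃ C T0 : ℝ, ∀ T : ℝ, T0 ≤ T → GV T 1 b ≤ C := by
  have h1 : ∀ᵐ b : ℝ, ∀ k : ℕ, 1 < b - k * δ →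
      ∃ C T0 : ℝ, ∀ T : ℝ, T0 ≤ T → GV T (max 1 (b - k * δ - δ)) (b - k * δ) ≤ C := by
    rw [ae_all_iff]
    intro k
    exact (measurePreserving_sub_right volume ((k : ℝ) * δ)).quasiMeasurePreserving.ae h
  have h2 : ∃ b ∈ Ioo (max B 1) (max B 1 + 1), ∀ k : ℕ, 1 < b - k * δ →
      ∃ C T0 : ℝ, ∀ T : ℝ, T0 ≤ T → GV T (max 1 (b - k * δ - δ)) (b - k * δ) ≤ C := by
    by_contra hne
    push Not at hne
    have h3 : volume (Ioo (max B 1) (max B 1 + 1)) = 0 := by
      refine measure_mono_null ?_ (ae_iff.1 h1)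
      intro b hb
      obtain ⟨k, hk⟩ := hne b hb
      simp only [mem_ofPred_eq, not_forall]
      refine ⟨k, hk.1, ?_⟩
      rintro ⟨C, T0, hC⟩
      obtain ⟨T, hT, hT2⟩ := hk.2 C T0
      exact absurd (hC T hT) (not_le.2 hT2)
    rw [Real.volume_Ioo] at h3
    simp at h3
  obtain ⟨b, hb, hb2⟩ := h2
  have hb1 : 1 < b := lt_of_le_of_lt (le_max_right _ _) hb.1
  refine ⟨b, lt_of_le_of_lt (le_max_left _ _) hb.1, hb1, ?_⟩
  obtain ⟨n, hn⟩ := exists_nat_gt ((b - 1) / δ)
  rw [div_lt_iff₀ hδ] at hn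
  exact whole hδ n b (by linarith) hb1 hb2

/-- telescoping -/
lemma tele {T x : ℝ} (hT : 1 ≤ T) (J : ℕ) : Chebyshev.psi x - x =
    (∑ j ∈ Finset.range J, D T (x / (1 + 1 / T) ^ (j + 1))) +
      (Chebyshev.psi (x / (1 + 1 / T) ^ J) - x / (1 + 1 / T) ^ J) := by
  have hT0 : 0 < T := by linarith
  have hq : 0 < 1 + 1 / T := by positivity
  induction J with
  | zero => simp
  | succ J ih =>
    rw [Finset.sum_range_succ]
    have h1 : D T (x / (1 + 1 / T) ^ (J + 1)) =
        (Chebyshev.psi (x / (1 + 1 / T) ^ J) - x / (1 + 1 / T) ^ J) -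
        (Chebyshev.psi (x / (1 + 1 / T) ^ (J + 1)) - x / (1 + 1 / T) ^ (J + 1)) := by
      have h2 : x / (1 + 1 / T) ^ (J + 1) + x / (1 + 1 / T) ^ (J + 1) / T = x / (1 + 1 / T) ^ J := by
        have h3 : x / (1 + 1 / T) ^ (J + 1) + x / (1 + 1 / T) ^ (J + 1) / T =
          x / (1 + 1 / T) ^ (J + 1) * (1 + 1 / T) := by ring
        rw [h3, pow_succ]
        field_simp
      have h4 : x / (1 + 1 / T) ^ (J + 1) / T =
          x / (1 + 1 / T) ^ J - x / (1 + 1 / T) ^ (J + 1) := by linarith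
      unfold D
      rw [h2, h4]
      ring
    rw [h1]
    linarith

/-- one shift -/
lemma one_shift {T X Q I r : ℝ} (hT : 1 ≤ T) (hX : 0 < X) (hr : 0 < r) (hQ : Q = r ^ 2) (hTQ : T ≤ X / Q)
    (hI0 : 0 < I) (hI : IV T T (2 * X) ≤ I) (hQ1 : 1 ≤ Q) :
    ∫ x in X..(2 * X), |D T (x / Q)| ≤ 2 * X * Real.sqrt (X * I) / r := by
  have hT0 : 0 < T := by linarith
  have hQ0 : 0 < Q := by linarith
  obtain ⟨S, hS⟩ : ∃ S : ℝ, S = Real.sqrt (X * I) := ⟨_, rfl⟩
  have hS0 : 0 < S := by rw [hS]; exact Real.sqrt_pos.2 (by positivity)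
  have hS2 : S ^ 2 = X * I := by rw [hS, Real.sq_sqrt (by positivity)]
  rw [← hS]
  rw [intervalIntegral.integral_comp_div (fun u => |D T u|) hQ0.ne', smul_eq_mul]
  obtain ⟨lam, hlam⟩ : ∃ lam : ℝ, lam = 2 * S / r := ⟨_, rfl⟩
  have hlam0 : 0 < lam := by rw [hlam]; positivity
  have hab : X / Q ≤ 2 * X / Q := div_le_div_of_nonneg_right (by linarith) hQ0.le
  have ha0 : 0 < X / Q := by positivity
  have h1 : ∫ u in (X / Q)..(2 * X / Q), |D T u| ≤
      ∫ u in (X / Q)..(2 * X / Q), (lam / 2 + (2 * X / Q) ^ 2 / (2 * lam) * (D T u ^ 2 / u ^ 2)) := by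
    apply intervalIntegral.integral_mono_on hab (D_int1 hT ha0.le hab)
    · exact (_root_.intervalIntegrable_const).add ((D_int2 hT ha0 hab).const_mul _)
    · intro u hu
      have hu0 : 0 < u := lt_of_lt_of_le ha0 hu.1
      have h2 : |D T u| ≤ lam / 2 + D T u ^ 2 / (2 * lam) := by
        have h3 : 0 ≤ (|D T u| - lam) ^ 2 := sq_nonneg _
        have h4 : |D T u| ^ 2 = D T u ^ 2 := sq_abs _
        have h5 : lam / 2 + D T u ^ 2 / (2 * lam) = (lam ^ 2 + D T u ^ 2) / (2 * lam) := by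
          field_simp
        rw [h5, le_div_iff₀ (by positivity)]
        nlinarith
      refine h2.trans (add_le_add le_rfl ?_)
      have h6 : D T u ^ 2 = u ^ 2 * (D T u ^ 2 / u ^ 2) := by field_simp
      have h7 : u ^ 2 * (D T u ^ 2 / u ^ 2) ≤ (2 * X / Q) ^ 2 * (D T u ^ 2 / u ^ 2) :=
        mul_le_mul_of_nonneg_right (pow_le_pow_left₀ hu0.le hu.2 2) (by positivity)
      rw [← h6] at h7
      calc D T u ^ 2 / (2 * lam) ≤ (2 * X / Q) ^ 2 * (D T u ^ 2 / u ^ 2) / (2 * lam) :=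
            div_le_div_of_nonneg_right h7 (by positivity)
        _ = _ := by ring
  have h2 : ∫ u in (X / Q)..(2 * X / Q), (lam / 2 + (2 * X / Q) ^ 2 / (2 * lam) * (D T u ^ 2 / u ^ 2)) =
      (2 * X / Q - X / Q) * (lam / 2) + (2 * X / Q) ^ 2 / (2 * lam) * IV T (X / Q) (2 * X / Q) := by
    rw [intervalIntegral.integral_add (_root_.intervalIntegrable_const) ((D_int2 hT ha0 hab).const_mul _),
      intervalIntegral.integral_const, intervalIntegral.integral_const_mul, smul_eq_mul]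
    rfl
  have h3 : IV T (X / Q) (2 * X / Q) ≤ I := by
    refine le_trans ?_ hI
    unfold IV
    have hXQ : 2 * X / Q ≤ 2 * X := div_le_self (by linarith) hQ1
    refine intervalIntegral.integral_mono_interval hTQ hab hXQ ?_ ?_
    · exact Filter.Eventually.of_forall fun u => by positivity
    · exact D_int2 hT hT0 (hTQ.trans (hab.trans hXQ))
  have h4 : (2 * X / Q) ^ 2 / (2 * lam) * IV T (X / Q) (2 * X / Q) ≤ (2 * X / Q) ^ 2 / (2 * lam) * I :=
    mul_le_mul_of_nonneg_left h3 (by positivity)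
  have h5 : Q * ∫ u in (X / Q)..(2 * X / Q), |D T u| ≤
      Q * ((2 * X / Q - X / Q) * (lam / 2) + (2 * X / Q) ^ 2 / (2 * lam) * I) :=
    mul_le_mul_of_nonneg_left (by linarith) hQ0.le
  refine h5.trans (le_of_eq ?_)
  have h6 : Q * ((2 * X / Q - X / Q) * (lam / 2) + (2 * X / Q) ^ 2 / (2 * lam) * I) =
      X * (lam / 2) + 2 * X * (X * I) / (lam * Q) := by
    field_simp
    ring
  rw [h6, ← hS2, hlam, hQ]
  field_simp
  ring

/-- the window error -/
lemma window {T X I : ℝ} (hT : 1 ≤ T) (hTX : T ≤ X) (hI0 : 0 < I) (hI : IV T T (2 * X) ≤ I) :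
    ∫ x in X..(2 * X), |Chebyshev.psi x - x| ≤ 6 * T * X * Real.sqrt (X * I) + 28 * T * X := by
  have hT0 : 0 < T := by linarith
  have hX : 0 < X := by linarith
  obtain ⟨q, hq⟩ : ∃ q : ℝ, q = 1 + 1 / T := ⟨_, rfl⟩
  have hq1 : 1 < q := by
    have : 0 < 1 / T := by positivity
    rw [hq]; linarith
  have hq2 : q ≤ 2 := by
    have : 1 / T ≤ 1 := by rw [div_le_one hT0]; exact hT
    rw [hq]; linarith
  obtain ⟨J, hJ1, hJ2⟩ := exists_nat_pow_near (show 1 ≤ X / T by rw [le_div_iff₀ hT0]; linarith) hq1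
  obtain ⟨r, hr⟩ : ∃ r : ℝ, r = Real.sqrt q := ⟨_, rfl⟩
  have hr2 : r ^ 2 = q := by rw [hr, Real.sq_sqrt (by linarith)]
  have hr0 : 0 < r := by rw [hr]; exact Real.sqrt_pos.2 (by linarith)
  have hr1 : 1 < r := by
    by_contra h
    push Not at h
    have : r ^ 2 ≤ 1 := pow_le_one₀ hr0.le h
    linarith
  have hr3 : r ≤ 2 := by nlinarith
  obtain ⟨S, hS⟩ : ∃ S : ℝ, S = Real.sqrt (X * I) := ⟨_, rfl⟩
  have hS0 : 0 < S := by rw [hS]; exact Real.sqrt_pos.2 (by positivity)
  have hshift : ∀ j ∈ Finset.range J, ∫ x in X..(2 * X), |D T (x / q ^ (j + 1))| ≤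
      2 * X * S * (1 / r) ^ (j + 1) := by
    intro j hj
    have hj' := Finset.mem_range.1 hj
    have hqj : q ^ (j + 1) ≤ X / T := (pow_le_pow_right₀ hq1.le (by omega)).trans hJ1
    have hqj0 : 0 < q ^ (j + 1) := by positivity
    have h1 := one_shift (r := r ^ (j + 1)) hT hX (by positivity) (show q ^ (j + 1) = (r ^ (j + 1)) ^ 2 by
      rw [← hr2, ← pow_mul, ← pow_mul, mul_comm]) (by
        rw [le_div_iff₀ hT0] at hqj
        rw [le_div_iff₀ hqj0]
        linarith) hI0 hI (one_le_pow₀ hq1.le)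
    refine h1.trans (le_of_eq ?_)
    rw [← hS, one_div, inv_pow]
    rfl
  have hab : X ≤ 2 * X := by linarith
  have hDint : ∀ j : ℕ, IntervalIntegrable (fun x => |D T (x / q ^ (j + 1))|) volume X (2 * X) := by
    intro j
    have hqj0 : 0 < q ^ (j + 1) := by positivity
    exact D_int1' hT hX.le hab (one_le_pow₀ hq1.le)
  have hpt : ∀ x ∈ Icc X (2 * X), |Chebyshev.psi x - x| ≤
      (∑ j ∈ Finset.range J, |D T (x / q ^ (j + 1))|) + 28 * T := by
    intro x hx
    have hx0 : 0 < x := lt_of_lt_of_le hX hx.1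
    rw [tele hT J, ← hq]
    refine (abs_add_le _ _).trans (add_le_add (Finset.abs_sum_le_sum_abs _ _) ?_)
    have hqJ0 : 0 < q ^ J := by positivity
    have hy : x / q ^ J ≤ 4 * T := by
      rw [div_le_iff₀ hqJ0]
      rw [div_lt_iff₀ hT0, pow_succ] at hJ2
      have h3 : q ^ J * q * T ≤ q ^ J * 2 * T := by gcongr
      linarith [hx.2]
    have hy0 : 0 ≤ x / q ^ J := by positivity
    have h4 := Chebyshev.psi_le_const_mul_self hy0
    have h5 := Chebyshev.psi_nonneg (x / q ^ J)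
    have h6 : Real.log 4 + 4 ≤ 6 := by
      have h6 : Real.log 4 = 2 * Real.log 2 := by
        rw [show (4:ℝ) = 2 ^ 2 by norm_num, Real.log_pow]; norm_num
      have := Real.log_two_lt_d9
      linarith
    have h7 : (Real.log 4 + 4) * (x / q ^ J) ≤ 6 * (x / q ^ J) := mul_le_mul_of_nonneg_right h6 hy0
    rw [abs_le]
    constructor <;> linarith
  have hint1 : IntervalIntegrable (fun x => |Chebyshev.psi x - x|) volume X (2 * X) := by
    apply IntervalIntegrable.abs
    apply IntervalIntegrable.sub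
    · exact Chebyshev.psi_mono.intervalIntegrable
    · exact continuous_id.intervalIntegrable _ _
  have hint2 : IntervalIntegrable (fun x => ∑ j ∈ Finset.range J, |D T (x / q ^ (j + 1))|) volume X (2 * X) := by
    have h := IntervalIntegrable.sum (Finset.range J) (fun j _ => hDint j)
    have e : (fun x => ∑ j ∈ Finset.range J, |D T (x / q ^ (j + 1))|) =
        ∑ j ∈ Finset.range J, fun x => |D T (x / q ^ (j + 1))| := by
      ext x; rw [Finset.sum_apply]
    rw [e]
    exact h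
  have h1 := intervalIntegral.integral_mono_on hab hint1
    (hint2.add (_root_.intervalIntegrable_const (c := 28 * T))) hpt
  rw [intervalIntegral.integral_add hint2 (_root_.intervalIntegrable_const),
    intervalIntegral.integral_finsetSum (fun j _ => hDint j), intervalIntegral.integral_const,
    smul_eq_mul] at h1
  have h2 := Finset.sum_le_sum hshift
  rw [← Finset.mul_sum] at h2
  have h3 : ∑ j ∈ Finset.range J, (1 / r) ^ (j + 1) ≤ 3 * T := by
    have hu0 : 0 ≤ 1 / r := by positivity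
    have hu1 : 1 / r < 1 := by rw [div_lt_one hr0]; exact hr1
    have h4 : ∑ j ∈ Finset.range J, (1 / r) ^ (j + 1) = (1 / r) * ∑ j ∈ Finset.range J, (1 / r) ^ j := by
      rw [Finset.mul_sum]
      exact Finset.sum_congr rfl fun j _ => by rw [pow_succ]; ring
    have h5 := (summable_geometric_of_lt_one hu0 hu1).sum_le_tsum (Finset.range J)
      (fun i _ => pow_nonneg hu0 i)
    rw [tsum_geometric_of_lt_one hu0 hu1] at h5
    rw [h4]
    refine (mul_le_mul_of_nonneg_left h5 hu0).trans ?_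
    have h6 : (1 / r) * (1 - 1 / r)⁻¹ = 1 / (r - 1) := by
      have : r - 1 ≠ 0 := by linarith
      field_simp
    rw [h6, div_le_iff₀ (by linarith)]
    have h7 : (r - 1) * (r + 1) = 1 / T := by
      have : (r - 1) * (r + 1) = r ^ 2 - 1 := by ring
      rw [this, hr2, hq]; ring
    have h8 : 1 / T ≤ (r - 1) * 3 := by
      rw [← h7]
      exact mul_le_mul_of_nonneg_left (by linarith) (by linarith)
    have h9 : T * (1 / T) = 1 := by field_simp
    have h10 := mul_le_mul_of_nonneg_left h8 hT0.le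
    linarith
  have h4 : 2 * X * S * ∑ j ∈ Finset.range J, (1 / r) ^ (j + 1) ≤ 2 * X * S * (3 * T) :=
    mul_le_mul_of_nonneg_left h3 (by positivity)
  rw [← hS]
  have h5 : (2 * X - X) * (28 * T) = 28 * T * X := by ring
  rw [h5] at h1
  linarith

end Pool.Agent.N490.PV6
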