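import Pool.Agent.N490.PV6a
import Pool.Agent.N799.LW.Main

/-!
# Project PV, part 6: the Riemann hypothesis from bounded variance of the primes (helper490)
-/

set_option autoImplicit false

open Filter Topology Set MeasureTheory

namespace Pool.Agent.N490.PV6

open Pool.Agent.N804.PV

lemma upper {b C T0 ε : ℝ} (hε : 0 < ε) (hb4 : 4 < b) (hbε : 4 / ε < b)
    (hC : ∀ T : ℝ, T0 ≤ T → GV T 1 b ≤ C) :
    ∀ᶠ X : ℝ in atTop, ∫ x in X..(2 * X), |Chebyshev.psi x - x| ≤ X ^ (1 + 1 / 2 + ε) := by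
  have hb0 : 0 < b := by linarith
  obtain ⟨M, hM⟩ : ∃ M : ℝ, M = |C| + 1 := ⟨_, rfl⟩
  have hM0 : 0 < M := by rw [hM]; positivity
  have hCM : C ≤ M := by rw [hM]; linarith [le_abs_self C]
  have t1 : Tendsto (fun X : ℝ => (2 * X) ^ (1 / b)) atTop atTop :=
    (tendsto_rpow_atTop (by positivity : 0 < 1 / b)).comp
      (tendsto_id.const_mul_atTop (by norm_num : (0:ℝ) < 2))
  have t2 : Tendsto (fun X : ℝ => X ^ (ε / 2)) atTop atTop := tendsto_rpow_atTop (by positivity)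
  have t3 : ∀ᶠ X : ℝ in atTop, ‖Real.log X‖ ≤ 1 * ‖X ^ (ε / 4)‖ :=
    (isLittleO_log_rpow_atTop (by positivity)).bound one_pos
  filter_upwards [t1.eventually_ge_atTop (max T0 2), t2.eventually_ge_atTop (6 * Real.sqrt M + 28), t3,
    eventually_ge_atTop 2] with X h1 h2 h3 h4
  obtain ⟨T, hT⟩ : ∃ T : ℝ, T = (2 * X) ^ (1 / b) := ⟨_, rfl⟩
  rw [← hT] at h1
  have hX0 : 0 < X := by linarith
  have hX1 : 1 ≤ X := by linarith
  have hT0 : T0 ≤ T := (le_max_left _ _).trans h1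
  have hT2 : 2 ≤ T := (le_max_right _ _).trans h1
  have hTpos : 0 < T := by linarith
  have hTb : T ^ b = 2 * X := by
    rw [hT, ← Real.rpow_mul (by positivity), one_div, inv_mul_cancel₀ hb0.ne', Real.rpow_one]
  have h2X : 2 * X ≤ X ^ (2:ℝ) := by
    rw [Real.rpow_two]; nlinarith
  have hTX : T ≤ X ^ (2 / b) := by
    rw [hT]
    calc (2 * X) ^ (1 / b) ≤ (X ^ (2:ℝ)) ^ (1 / b) := Real.rpow_le_rpow (by positivity) h2X (by positivity)
      _ = X ^ (2 / b) := by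
          rw [← Real.rpow_mul hX0.le]; congr 1; ring
  have hT12 : T ≤ X ^ (1 / 2 : ℝ) := hTX.trans (Real.rpow_le_rpow_of_exponent_le hX1 (by
    rw [div_le_div_iff₀ hb0 (by norm_num)]; linarith))
  have hTε : T ≤ X ^ (ε / 2) := hTX.trans (Real.rpow_le_rpow_of_exponent_le hX1 (by
    rw [div_lt_iff₀ hε] at hbε
    rw [div_le_div_iff₀ hb0 (by norm_num)]; linarith))
  have hTleX : T ≤ X := hT12.trans (by
    calc X ^ (1 / 2 : ℝ) ≤ X ^ (1:ℝ) := Real.rpow_le_rpow_of_exponent_le hX1 (by norm_num)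
      _ = X := Real.rpow_one X)
  have hL0 : 0 < Real.log T := Real.log_pos (by linarith)
  have hLX : Real.log T ≤ Real.log X := Real.log_le_log hTpos hTleX
  -- the variance
  have hG := hC T hT0
  rw [GV_eq, Real.rpow_one, hTb] at hG
  obtain ⟨I, hI⟩ : ∃ I : ℝ, I = M * Real.log T ^ 2 / T := ⟨_, rfl⟩
  have hI0 : 0 < I := by rw [hI]; positivity
  have hIV : IV T T (2 * X) ≤ I := by
    rw [hI, le_div_iff₀ hTpos]
    have e1 : T / Real.log T ^ 2 * IV T T (2 * X) * Real.log T ^ 2 = IV T T (2 * X) * T := by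
      field_simp
    have e2 := mul_le_mul_of_nonneg_right (hG.trans hCM) (sq_nonneg (Real.log T))
    rw [e1] at e2
    exact e2
  have hw := window (by linarith) hTleX hI0 hIV
  refine hw.trans ?_
  -- estimates
  obtain ⟨Y, hY⟩ : ∃ Y : ℝ, Y = X ^ (ε / 2) := ⟨_, rfl⟩
  rw [← hY] at h2
  have hs0 : 0 ≤ Real.sqrt M := Real.sqrt_nonneg _
  have hY1 : 1 ≤ Y := by linarith
  obtain ⟨Z, hZ⟩ : ∃ Z : ℝ, Z = X ^ (ε / 4) := ⟨_, rfl⟩
  have hZ0 : 0 < Z := by rw [hZ]; positivity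
  have hZY : Z ^ 2 = Y := by
    rw [hZ, hY, ← Real.rpow_natCast, ← Real.rpow_mul hX0.le]
    congr 1; push_cast; ring
  obtain ⟨W, hW⟩ : ∃ W : ℝ, W = X ^ (1 / 2 : ℝ) := ⟨_, rfl⟩
  have hW0 : 0 < W := by rw [hW]; positivity
  have hW2 : W ^ 2 = X := by
    rw [hW, ← Real.rpow_natCast, ← Real.rpow_mul hX0.le]
    norm_num
  have hlog : Real.log X ≤ Z := by
    rw [one_mul, Real.norm_eq_abs, Real.norm_of_nonneg (by positivity), ← hZ] at h3
    exact (le_abs_self _).trans h3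
  have hsq : T * Real.sqrt (X * I) ≤ W * Z * Real.sqrt M * Z := by
    have e1 : T * Real.sqrt (X * I) = Real.sqrt (T * (X * (M * Real.log T ^ 2))) := by
      have e2 : T * (X * (M * Real.log T ^ 2)) = T ^ 2 * (X * I) := by
        rw [hI]; field_simp
      rw [e2, Real.sqrt_mul (sq_nonneg T), Real.sqrt_sq hTpos.le]
    rw [e1, Real.sqrt_le_left (by positivity)]
    have e3 : (W * Z * Real.sqrt M * Z) ^ 2 = Y * (X * (M * Z ^ 2)) := by
      have : (W * Z * Real.sqrt M * Z) ^ 2 = W ^ 2 * Z ^ 2 * (Real.sqrt M) ^ 2 * Z ^ 2 := by ring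
      rw [this, Real.sq_sqrt hM0.le, hW2, hZY]; ring
    rw [e3]
    have e4 : T ≤ Y := by rw [hY]; exact hTε
    have e5 : Real.log T ^ 2 ≤ Z ^ 2 := pow_le_pow_left₀ hL0.le (hLX.trans hlog) 2
    gcongr
  have e1 : W * Z * Real.sqrt M * Z = W * Real.sqrt M * Y := by
    rw [← hZY]; ring
  rw [e1] at hsq
  have e2 : X ^ (1 + 1 / 2 + ε) = X * W * (Y * Y) := by
    rw [Real.rpow_add hX0, Real.rpow_add hX0, Real.rpow_one, hW, hY, ← Real.rpow_add hX0]
    congr 2; ring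
  rw [e2]
  have e3 : 6 * T * X * Real.sqrt (X * I) ≤ 6 * X * (W * Real.sqrt M * Y) := by
    have : 6 * T * X * Real.sqrt (X * I) = 6 * X * (T * Real.sqrt (X * I)) := by ring
    rw [this]
    exact mul_le_mul_of_nonneg_left hsq (by positivity)
  have e4 : 28 * T * X ≤ 28 * X * W := by
    have : 28 * X * T ≤ 28 * X * W := mul_le_mul_of_nonneg_left (by rw [hW]; exact hT12) (by positivity)
    linarith
  have e5 : 6 * Real.sqrt M * Y + 28 ≤ Y * Y := by nlinarith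
  have e6 : X * W * (6 * Real.sqrt M * Y + 28) ≤ X * W * (Y * Y) :=
    mul_le_mul_of_nonneg_left e5 (by positivity)
  have e7 : X * W * (6 * Real.sqrt M * Y + 28) = 6 * X * (W * Real.sqrt M * Y) + 28 * X * W := by ring
  linarith

theorem main : S_PV6 := by
  intro δ hδ h
  rw [Pool.Agent.N799.LW.rh_free, Pool.Agent.N799.LW.crit (θ := 1 / 2) (κ := 0) le_rfl (by norm_num)
    le_rfl (by norm_num)]
  intro ε hε
  obtain ⟨b, hb, hb1, C, T0, hC⟩ := exists_b hδ h (max 4 (4 / ε))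
  have h1 := upper hε (lt_of_le_of_lt (le_max_left _ _) hb) (lt_of_le_of_lt (le_max_right _ _) hb) hC
  refine Eventually.frequently ?_
  filter_upwards [h1] with X hX
  unfold Pool.Agent.N799.LW.WE
  rw [Real.rpow_zero, div_one, ← two_mul]
  exact hX

end Pool.Agent.N490.PV6
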