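import Pool.Agent.N490.PV6a
import Pool.Agent.N799.LW.Main

/-!
# Project PX, part 2: the Riemann hypothesis from bounded variance for fixed lengths (helper490)

The parts which do not depend on the definitions of the variance for fixed lengths.
-/

set_option autoImplicit false

open Filter Topology Set MeasureTheory

namespace Pool.Agent.N490.PX2

open Pool.Agent.N804.PV (DT)
open Pool.Agent.N490.PV6 (D IV window D_int2)

/-! ### The whole range -/

/-- the variance is bounded on the whole range -/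
lemma whole (G : ℝ → ℝ → ℝ → ℝ) (hadd : ∀ T : ℝ, 2 ≤ T → ∀ u v w : ℝ, 1 ≤ u → u ≤ v → v ≤ w →
    G T u v + G T v w = G T u w) {δ : ℝ} (hδ : 0 < δ) (n : ℕ) : ∀ b : ℝ, b ≤ 1 + n * δ → 1 < b →
    (∀ k : ℕ, 1 < b - k * δ → ∃ C T0 : ℝ, ∀ T : ℝ, T0 ≤ T → G T (max 1 (b - k * δ - δ)) (b - k * δ) ≤ C) →
    ∃ C T0 : ℝ, ∀ T : ℝ, T0 ≤ T → G T 1 b ≤ C := by
  induction n with
  | zero =>
    intro b h1 h2
    exfalso
    simp at h1
    linarith
  | succ n ih =>
    intro b h1 h2 h3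
    obtain ⟨C, T0, hC⟩ := h3 0 (by simpa using h2)
    simp only [Nat.cast_zero, zero_mul, sub_zero] at hC
    rcases le_or_gt (b - δ) 1 with h | h
    · rw [max_eq_left h] at hC
      exact ⟨C, T0, hC⟩
    · rw [max_eq_right h.le] at hC
      obtain ⟨C', T0', hC'⟩ := ih (b - δ) (by push_cast at h1; linarith) h (by
        intro k hk
        have h4 := h3 (k + 1) (by push_cast; linarith)
        have e1 : b - δ - k * δ = b - ((k + 1 : ℕ) : ℝ) * δ := by push_cast; ring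
        rw [e1]
        exact h4)
      refine ⟨C' + C, max 2 (max T0 T0'), fun T hT => ?_⟩
      have hT1 : 2 ≤ T := (le_max_left _ _).trans hT
      have hT2 : T0 ≤ T := (le_max_left _ _).trans ((le_max_right _ _).trans hT)
      have hT3 : T0' ≤ T := (le_max_right _ _).trans ((le_max_right _ _).trans hT)
      rw [← hadd T hT1 1 (b - δ) b le_rfl h.le (by linarith : b - δ ≤ b)]
      exact add_le_add (hC' T hT3) (hC T hT2)

/-- good exponents are arbitrarily large -/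
lemma exists_b (G : ℝ → ℝ → ℝ → ℝ) (hadd : ∀ T : ℝ, 2 ≤ T → ∀ u v w : ℝ, 1 ≤ u → u ≤ v → v ≤ w →
    G T u v + G T v w = G T u w) {δ : ℝ} (hδ : 0 < δ)
    (h : ∀ᵐ b : ℝ, 1 < b → ∃ C T0 : ℝ, ∀ T : ℝ, T0 ≤ T → G T (max 1 (b - δ)) b ≤ C) (B : ℝ) :
    ∃ b : ℝ, B < b ∧ 1 < b ∧ ∃ C T0 : ℝ, ∀ T : ℝ, T0 ≤ T → G T 1 b ≤ C := by
  have h1 : ∀ᵐ b : ℝ, ∀ k : ℕ, 1 < b - k * δ →
      ∃ C T0 : ℝ, ∀ T : ℝ, T0 ≤ T → G T (max 1 (b - k * δ - δ)) (b - k * δ) ≤ C := by
    rw [ae_all_iff]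
    intro k
    exact (measurePreserving_sub_right volume ((k : ℝ) * δ)).quasiMeasurePreserving.ae h
  have h2 : ∃ b ∈ Ioo (max B 1) (max B 1 + 1), ∀ k : ℕ, 1 < b - k * δ →
      ∃ C T0 : ℝ, ∀ T : ℝ, T0 ≤ T → G T (max 1 (b - k * δ - δ)) (b - k * δ) ≤ C := by
    by_contra hne
    push Not at hne
    have h3 : volume (Ioo (max B 1) (max B 1 + 1)) = 0 := by
      refine measure_mono_null ?_ (ae_iff.1 h1)
      intro b hb
      obtain ⟨k, hk⟩ := hne b hb
      simp only [mem_ofPred_eq, not_forall]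
      refine ⟨k, hk.1, ?_⟩
      rintro ⟨C, T0, hC⟩
      obtain ⟨T, hT, hT2⟩ := hk.2 C T0
      exact absurd (hC T hT) (not_le.2 hT2)
    rw [Real.volume_Ioo] at h3
    simp at h3
  obtain ⟨b, hb, hb2⟩ := h2
  have hb1 : 1 < b := lt_of_le_of_lt (le_max_right _ _) hb.1
  refine ⟨b, lt_of_le_of_lt (le_max_left _ _) hb.1, hb1, ?_⟩
  obtain ⟨n, hn⟩ := exists_nat_gt ((b - 1) / δ)
  rw [div_lt_iff₀ hδ] at hn
  exact whole G hadd hδ n b (by linarith) hb1 hb2

/-! ### Change of variables -/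

/-- the variance in the logarithmic variable -/
lemma IV_exp (t : ℝ) {p q : ℝ} (hpq : p ≤ q) :
    IV t (Real.exp p) (Real.exp q) = ∫ y in p..q, DT t y ^ 2 := by
  unfold IV
  rw [intervalIntegral.integral_of_le (Real.exp_le_exp.2 hpq),
    intervalIntegral.integral_of_le hpq]
  have himg : Real.exp '' Ioc p q = Ioc (Real.exp p) (Real.exp q) := by
    ext x
    constructor
    · rintro ⟨u, hu, rfl⟩
      exact ⟨Real.exp_lt_exp.2 hu.1, Real.exp_le_exp.2 hu.2⟩
    · rintro ⟨h1, h2⟩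
      have hx : 0 < x := (Real.exp_pos _).trans h1
      refine ⟨Real.log x, ⟨?_, ?_⟩, Real.exp_log hx⟩
      · rwa [Real.lt_log_iff_exp_lt hx]
      · rwa [Real.log_le_iff_le_exp hx]
  rw [← himg, integral_image_eq_integral_abs_deriv_smul measurableSet_Ioc
    (fun x _ => (Real.hasDerivAt_exp x).hasDerivWithinAt) Real.exp_injective.injOn]
  refine setIntegral_congr_fun measurableSet_Ioc fun y _ => ?_
  have hy := Real.exp_pos y
  show |Real.exp y| • _ = _
  rw [abs_of_pos hy, smul_eq_mul]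
  unfold DT D
  have e3 : Real.exp y * (1 + 1 / t) = Real.exp y + Real.exp y / t := by ring
  have e4 : Real.exp (-(y / 2)) ^ 2 = (Real.exp y)⁻¹ := by
    rw [← Real.exp_neg, ← Real.exp_nat_mul]
    congr 1
    push_cast
    ring
  rw [mul_pow, e3, e4]
  field_simp

/-- the integral of `FI` -/
lemma FI_eq {T t b : ℝ} (hT : 1 < T) (ht : 0 < t) (hb : 1 ≤ b) :
    ∫ α in (1:ℝ)..b, t / Real.log T * DT t (Real.log t + (α - 1) * Real.log T) ^ 2 =
      t / Real.log T ^ 2 * IV t t (t * T ^ (b - 1)) := by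
  have hL := Real.log_pos hT
  have hT0 : 0 < T := by linarith
  have h1 := intervalIntegral.integral_comp_add_mul (a := 1) (b := b)
    (fun y => DT t y ^ 2) hL.ne' (Real.log t - Real.log T)
  have e1 : ∀ α : ℝ, Real.log t + (α - 1) * Real.log T =
      Real.log t - Real.log T + Real.log T * α := fun α => by ring
  rw [intervalIntegral.integral_const_mul]
  simp_rw [e1]
  rw [h1, smul_eq_mul]
  have e2 : Real.log t - Real.log T + Real.log T * 1 = Real.log t := by ring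
  have e3 : Real.log t - Real.log T + Real.log T * b = Real.log t + (b - 1) * Real.log T := by ring
  rw [e2, e3, ← IV_exp t (by nlinarith : Real.log t ≤ Real.log t + (b - 1) * Real.log T),
    Real.exp_log ht, Real.exp_add, Real.exp_log ht]
  have e4 : Real.exp ((b - 1) * Real.log T) = T ^ (b - 1) := by
    rw [Real.rpow_def_of_pos hT0, mul_comm]
  rw [e4]
  field_simp

/-- a good value of `t` -/
lemma pick {F : ℝ → ℝ} {T θ C : ℝ} (hT : 8 ≤ T) (hθ : 0 ≤ θ) (hθ1 : θ ≤ 1) (hC : 0 ≤ C)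
    (hF : IntervalIntegrable F volume 0 (T - θ)) (h0 : ∀ t : ℝ, 0 < t → 0 ≤ F t)
    (hI : 1 / T * ∫ t in (0:ℝ)..(T - θ), F t ≤ C) :
    ∃ t : ℝ, T / 2 ≤ t ∧ t ≤ T ∧ F t ≤ 4 * C + 1 := by
  by_contra hcon
  push Not at hcon
  have hT0 : 0 < T := by linarith
  have hab : T / 2 ≤ T - θ := by linarith
  have hF' : IntervalIntegrable F volume (T / 2) (T - θ) :=
    hF.mono_set (by
      rw [uIcc_of_le hab, uIcc_of_le (by linarith : (0:ℝ) ≤ T - θ)]
      exact Icc_subset_Icc (by linarith) le_rfl)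
  have h1 : ∫ t in (T / 2)..(T - θ), F t ≤ ∫ t in (0:ℝ)..(T - θ), F t := by
    refine intervalIntegral.integral_mono_interval (by linarith) hab le_rfl ?_ hF
    rw [EventuallyLE, ae_restrict_iff' measurableSet_Ioc]
    exact Filter.Eventually.of_forall fun t ht => h0 t ht.1
  have h2 : ∫ _ in (T / 2)..(T - θ), (4 * C + 1) ≤ ∫ t in (T / 2)..(T - θ), F t := by
    refine intervalIntegral.integral_mono_on hab _root_.intervalIntegrable_const hF' ?_
    intro t ht
    exact (hcon t ht.1 (by linarith [ht.2])).le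
  rw [intervalIntegral.integral_const, smul_eq_mul] at h2
  have h3 : ∫ t in (0:ℝ)..(T - θ), F t ≤ C * T := by
    rw [one_div, inv_mul_le_iff₀ hT0] at hI
    linarith
  have h4 : T / 4 ≤ T - θ - T / 2 := by linarith
  have h5 : T / 4 * (4 * C + 1) ≤ (T - θ - T / 2) * (4 * C + 1) :=
    mul_le_mul_of_nonneg_right h4 (by linarith)
  nlinarith

/-! ### The window error -/

lemma upper {b M T0 ε : ℝ} (hε : 0 < ε) (hb4 : 4 < b) (hbε : 4 / ε < b) (hM0 : 0 < M)
    (hC : ∀ T : ℝ, T0 ≤ T → 8 ≤ T → ∃ t : ℝ, T / 2 ≤ t ∧ t ≤ T ∧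
      t / Real.log T ^ 2 * IV t t (T ^ b / 2) ≤ M) :
    ∀ᶠ X : ℝ in atTop, ∫ x in X..(2 * X), |Chebyshev.psi x - x| ≤ X ^ (1 + 1 / 2 + ε) := by
  have hb0 : 0 < b := by linarith
  have t1 : Tendsto (fun X : ℝ => (4 * X) ^ (1 / b)) atTop atTop :=
    (tendsto_rpow_atTop (by positivity : 0 < 1 / b)).comp
      (tendsto_id.const_mul_atTop (by norm_num : (0:ℝ) < 4))
  have t2 : Tendsto (fun X : ℝ => X ^ (ε / 2)) atTop atTop := tendsto_rpow_atTop (by positivity)
  have t3 : ∀ᶠ X : ℝ in atTop, ‖Real.log X‖ ≤ 1 * ‖X ^ (ε / 4)‖ :=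
    (isLittleO_log_rpow_atTop (by positivity)).bound one_pos
  filter_upwards [t1.eventually_ge_atTop (max T0 8), t2.eventually_ge_atTop (6 * Real.sqrt M + 28), t3,
    eventually_ge_atTop 4] with X h1 h2 h3 h4
  obtain ⟨T, hT⟩ : ∃ T : ℝ, T = (4 * X) ^ (1 / b) := ⟨_, rfl⟩
  rw [← hT] at h1
  have hX0 : 0 < X := by linarith
  have hX1 : 1 ≤ X := by linarith
  have hT0 : T0 ≤ T := (le_max_left _ _).trans h1
  have hT8 : 8 ≤ T := (le_max_right _ _).trans h1
  have hTpos : 0 < T := by linarith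
  have hTb : T ^ b = 4 * X := by
    rw [hT, ← Real.rpow_mul (by positivity), one_div, inv_mul_cancel₀ hb0.ne', Real.rpow_one]
  have h2X : 4 * X ≤ X ^ (2:ℝ) := by
    rw [Real.rpow_two]; nlinarith
  have hTX : T ≤ X ^ (2 / b) := by
    rw [hT]
    calc (4 * X) ^ (1 / b) ≤ (X ^ (2:ℝ)) ^ (1 / b) := Real.rpow_le_rpow (by positivity) h2X (by positivity)
      _ = X ^ (2 / b) := by
          rw [← Real.rpow_mul hX0.le]; congr 1; ring
  have hT12 : T ≤ X ^ (1 / 2 : ℝ) := hTX.trans (Real.rpow_le_rpow_of_exponent_le hX1 (by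
    rw [div_le_div_iff₀ hb0 (by norm_num)]; linarith))
  have hTε : T ≤ X ^ (ε / 2) := hTX.trans (Real.rpow_le_rpow_of_exponent_le hX1 (by
    rw [div_lt_iff₀ hε] at hbε
    rw [div_le_div_iff₀ hb0 (by norm_num)]; linarith))
  have hTleX : T ≤ X := hT12.trans (by
    calc X ^ (1 / 2 : ℝ) ≤ X ^ (1:ℝ) := Real.rpow_le_rpow_of_exponent_le hX1 (by norm_num)
      _ = X := Real.rpow_one X)
  have hL0 : 0 < Real.log T := Real.log_pos (by linarith)
  have hLX : Real.log T ≤ Real.log X := Real.log_le_log hTpos hTleX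
  -- the variance
  obtain ⟨t, ht1, ht2, hG⟩ := hC T hT0 hT8
  have ht0 : 0 < t := by linarith
  rw [hTb] at hG
  obtain ⟨I, hI⟩ : ∃ I : ℝ, I = M * Real.log T ^ 2 / t := ⟨_, rfl⟩
  have hI0 : 0 < I := by rw [hI]; positivity
  have hIV : IV t t (2 * X) ≤ I := by
    rw [hI, le_div_iff₀ ht0]
    have e0 : 4 * X / 2 = 2 * X := by ring
    rw [e0] at hG
    have e1 : t / Real.log T ^ 2 * IV t t (2 * X) * Real.log T ^ 2 = IV t t (2 * X) * t := by
      field_simp
    have e2 := mul_le_mul_of_nonneg_right hG (sq_nonneg (Real.log T))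
    rw [e1] at e2
    exact e2
  have hw := window (by linarith) (ht2.trans hTleX) hI0 hIV
  refine hw.trans ?_
  -- estimates
  obtain ⟨Y, hY⟩ : ∃ Y : ℝ, Y = X ^ (ε / 2) := ⟨_, rfl⟩
  rw [← hY] at h2
  have hs0 : 0 ≤ Real.sqrt M := Real.sqrt_nonneg _
  have hY1 : 1 ≤ Y := by linarith
  obtain ⟨Z, hZ⟩ : ∃ Z : ℝ, Z = X ^ (ε / 4) := ⟨_, rfl⟩
  have hZ0 : 0 < Z := by rw [hZ]; positivity
  have hZY : Z ^ 2 = Y := by
    rw [hZ, hY, ← Real.rpow_natCast, ← Real.rpow_mul hX0.le]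
    congr 1; push_cast; ring
  obtain ⟨W, hW⟩ : ∃ W : ℝ, W = X ^ (1 / 2 : ℝ) := ⟨_, rfl⟩
  have hW0 : 0 < W := by rw [hW]; positivity
  have hW2 : W ^ 2 = X := by
    rw [hW, ← Real.rpow_natCast, ← Real.rpow_mul hX0.le]
    norm_num
  have hlog : Real.log X ≤ Z := by
    rw [one_mul, Real.norm_eq_abs, Real.norm_of_nonneg (by positivity), ← hZ] at h3
    exact (le_abs_self _).trans h3
  have hsq : t * Real.sqrt (X * I) ≤ W * Z * Real.sqrt M * Z := by
    have e1 : t * Real.sqrt (X * I) = Real.sqrt (t * (X * (M * Real.log T ^ 2))) := by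
      have e2 : t * (X * (M * Real.log T ^ 2)) = t ^ 2 * (X * I) := by
        rw [hI]; field_simp
      rw [e2, Real.sqrt_mul (sq_nonneg t), Real.sqrt_sq ht0.le]
    rw [e1, Real.sqrt_le_left (by positivity)]
    have e3 : (W * Z * Real.sqrt M * Z) ^ 2 = Y * (X * (M * Z ^ 2)) := by
      have : (W * Z * Real.sqrt M * Z) ^ 2 = W ^ 2 * Z ^ 2 * (Real.sqrt M) ^ 2 * Z ^ 2 := by ring
      rw [this, Real.sq_sqrt hM0.le, hW2, hZY]; ring
    rw [e3]
    have e4 : t ≤ Y := by rw [hY]; exact ht2.trans hTε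
    have e5 : Real.log T ^ 2 ≤ Z ^ 2 := pow_le_pow_left₀ hL0.le (hLX.trans hlog) 2
    gcongr
  have e1 : W * Z * Real.sqrt M * Z = W * Real.sqrt M * Y := by
    rw [← hZY]; ring
  rw [e1] at hsq
  have e2 : X ^ (1 + 1 / 2 + ε) = X * W * (Y * Y) := by
    rw [Real.rpow_add hX0, Real.rpow_add hX0, Real.rpow_one, hW, hY, ← Real.rpow_add hX0]
    congr 2; ring
  rw [e2]
  have e3 : 6 * t * X * Real.sqrt (X * I) ≤ 6 * X * (W * Real.sqrt M * Y) := by
    have : 6 * t * X * Real.sqrt (X * I) = 6 * X * (t * Real.sqrt (X * I)) := by ring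
    rw [this]
    exact mul_le_mul_of_nonneg_left hsq (by positivity)
  have e4 : 28 * t * X ≤ 28 * X * W := by
    have : 28 * X * t ≤ 28 * X * W :=
      mul_le_mul_of_nonneg_left (by rw [hW]; exact ht2.trans hT12) (by positivity)
    linarith
  have e5 : 6 * Real.sqrt M * Y + 28 ≤ Y * Y := by nlinarith
  have e6 : X * W * (6 * Real.sqrt M * Y + 28) ≤ X * W * (Y * Y) :=
    mul_le_mul_of_nonneg_left e5 (by positivity)
  have e7 : X * W * (6 * Real.sqrt M * Y + 28) = 6 * X * (W * Real.sqrt M * Y) + 28 * X * W := by ring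
  linarith

/-- the Riemann hypothesis -/
theorem rh_of (h : ∀ B : ℝ, ∃ b : ℝ, B < b ∧ ∃ M T0 : ℝ, 0 < M ∧ ∀ T : ℝ, T0 ≤ T → 8 ≤ T →
    ∃ t : ℝ, T / 2 ≤ t ∧ t ≤ T ∧ t / Real.log T ^ 2 * IV t t (T ^ b / 2) ≤ M) :
    RiemannHypothesis := by
  rw [Pool.Agent.N799.LW.rh_free, Pool.Agent.N799.LW.crit (θ := 1 / 2) (κ := 0) le_rfl (by norm_num)
    le_rfl (by norm_num)]
  intro ε hε
  obtain ⟨b, hb, M, T0, hM, hC⟩ := h (max 4 (4 / ε))
  have h1 := upper hε (lt_of_le_of_lt (le_max_left _ _) hb) (lt_of_le_of_lt (le_max_right _ _) hb) hM hC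
  refine Eventually.frequently ?_
  filter_upwards [h1] with X hX
  unfold Pool.Agent.N799.LW.WE
  rw [Real.rpow_zero, div_one, ← two_mul]
  exact hX

/-! ### The statement, with the definitions as parameters -/

/-- from the properties of the variance to the conclusion -/
theorem final (WV PSI FI : ℝ → ℝ → ℝ → ℝ) (JWV : ℝ → ℝ → ℝ → ℝ) (θ : ℝ) (hθ : 0 ≤ θ) (hθ1 : θ ≤ 1)
    (hFI : ∀ T t α, FI T t α = t / Real.log T * DT t (Real.log t + (α - 1) * Real.log T) ^ 2)
    (hW : ∀ T u v, JWV T u v = WV T u v)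
    (h1 : ∀ T : ℝ, 2 ≤ T →
      (∀ a b : ℝ, IntervalIntegrable (PSI θ T) volume a b) ∧
      (∀ u v : ℝ, 1 ≤ u → u ≤ v → WV T u v = ∫ α in u..v, PSI θ T α) ∧
      ∀ g : ℝ → ℝ, Measurable g →
        (∃ M A : ℝ, ∀ α : ℝ, |g α| ≤ M ∧ (α < 1 ∨ A < α → g α = 0)) →
        (∀ t : ℝ, 0 < t → t ≤ T → Integrable fun α => g α * FI T t α) ∧
        IntervalIntegrable (fun t => ∫ α : ℝ, g α * FI T t α) volume 0 (T - θ) ∧
        ∫ α : ℝ, g α * PSI θ T α = 1 / T * ∫ t in (0 : ℝ)..(T - θ), ∫ α : ℝ, g α * FI T t α)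
    {δ : ℝ} (hδ : 0 < δ)
    (h : ∀ᵐ b : ℝ, 1 < b → ∃ C T0 : ℝ, ∀ T : ℝ, T0 ≤ T → JWV T (max 1 (b - δ)) b ≤ C) :
    RiemannHypothesis ∧ ∀ B : ℝ, ∃ b : ℝ, B < b ∧ ∃ C T0 : ℝ, ∀ T : ℝ, T0 ≤ T → JWV T 1 b ≤ C := by
  have hadd : ∀ T : ℝ, 2 ≤ T → ∀ u v w : ℝ, 1 ≤ u → u ≤ v → v ≤ w →
      JWV T u v + JWV T v w = JWV T u w := by
    intro T hT u v w hu huv hvw
    obtain ⟨g1, g2, -⟩ := h1 T hT
    rw [hW, hW, hW, g2 u v hu huv, g2 v w (hu.trans huv) hvw, g2 u w hu (huv.trans hvw)]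
    exact intervalIntegral.integral_add_adjacent_intervals (g1 _ _) (g1 _ _)
  have hb := exists_b JWV hadd hδ h
  refine ⟨rh_of fun B => ?_, fun B => ?_⟩
  · obtain ⟨b, hb1, hb2, C, T0, hC⟩ := hb B
    refine ⟨b, hb1, 4 * max C 0 + 1, max T0 2, by positivity, fun T hT hT8 => ?_⟩
    obtain ⟨g1, g2, g3⟩ := h1 T (by linarith)
    have hT1 : 1 < T := by linarith
    have hT0 : 0 < T := by linarith
    have hL := Real.log_pos hT1
    set g : ℝ → ℝ := (Ioc 1 b).indicator fun _ => 1 with hg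
    obtain ⟨-, k2, k3⟩ := g3 g (measurable_const.indicator measurableSet_Ioc) ⟨1, b, fun α => by
      constructor
      · rw [hg, indicator_apply]
        split_ifs <;> norm_num
      · intro hα
        rw [hg, indicator_of_notMem]
        rintro ⟨a1, a2⟩
        rcases hα with hα | hα <;> linarith⟩
    have hgI : ∀ f : ℝ → ℝ, ∫ α : ℝ, g α * f α = ∫ α in (1:ℝ)..b, f α := by
      intro f
      rw [intervalIntegral.integral_of_le hb2.le, ← integral_indicator measurableSet_Ioc]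
      congr 1
      funext α
      rw [hg, indicator_apply, indicator_apply]
      split_ifs <;> ring
    have hGv : ∀ t : ℝ, 0 < t → ∫ α : ℝ, g α * FI T t α =
        t / Real.log T ^ 2 * IV t t (t * T ^ (b - 1)) := by
      intro t ht
      rw [hgI, ← FI_eq hT1 ht hb2.le]
      congr 1
      funext α
      rw [hFI]
    have hG0 : ∀ t : ℝ, 0 < t → 0 ≤ ∫ α : ℝ, g α * FI T t α := by
      intro t ht
      apply integral_nonneg
      intro α
      show 0 ≤ g α * FI T t α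
      rw [hFI, hg, indicator_apply]
      split_ifs
      · positivity
      · rw [zero_mul]
    have hV := hC T ((le_max_left _ _).trans hT)
    rw [hW, g2 1 b le_rfl hb2.le, ← hgI, k3] at hV
    obtain ⟨t, ht1, ht2, ht3⟩ := pick hT8 hθ hθ1 (le_max_right C 0) k2 hG0 (hV.trans (le_max_left C 0))
    refine ⟨t, ht1, ht2, ?_⟩
    have ht0 : 0 < t := by linarith
    rw [hGv t ht0] at ht3
    refine le_trans ?_ ht3
    apply mul_le_mul_of_nonneg_left _ (by positivity)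
    have hTb : T ^ b / 2 ≤ t * T ^ (b - 1) := by
      have e1 : T ^ b = T * T ^ (b - 1) := by
        rw [Real.rpow_sub_one hT0.ne']
        field_simp
      rw [e1]
      have e2 : 0 < T ^ (b - 1) := by positivity
      nlinarith
    unfold IV
    rcases le_total t (T ^ b / 2) with hc | hc
    · refine intervalIntegral.integral_mono_interval le_rfl hc hTb ?_ ?_
      · exact Filter.Eventually.of_forall fun u => by positivity
      · exact D_int2 (by linarith) ht0 (hc.trans hTb)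
    · have e3 : t ≤ t * T ^ (b - 1) := by
        have : 1 ≤ T ^ (b - 1) := Real.one_le_rpow hT1.le (by linarith)
        nlinarith
      rw [intervalIntegral.integral_symm]
      have e4 : 0 ≤ ∫ x in (T ^ b / 2)..t, D t x ^ 2 / x ^ 2 :=
        intervalIntegral.integral_nonneg hc fun x _ => by positivity
      have e5 : 0 ≤ ∫ x in t..(t * T ^ (b - 1)), D t x ^ 2 / x ^ 2 :=
        intervalIntegral.integral_nonneg e3 fun x _ => by positivity
      linarith
  · obtain ⟨b, hb1, -, hC⟩ := hb B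
    exact ⟨b, hb1, hC⟩

end Pool.Agent.N490.PX2
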