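import Pool.Agent.N804.PV.DefW
import Pool.Agent.N490.PX2a

/-!
# Project PX, part 2: the Riemann hypothesis from bounded variance for fixed lengths (helper490)
-/

set_option autoImplicit false

namespace Pool.Agent.N490.PX2

open Pool.Agent.N804.PV

/-- PW2 from PW1 -/
theorem main (h1 : S_W1) : S_W2 := by
  intro θ hθ hθ1 δ hδ h
  exact final (WV θ) PSI FI (WV θ) θ hθ hθ1 (fun _ _ _ => rfl) (fun _ _ _ => rfl)
    (fun T hT => h1 θ hθ hθ1 T hT) hδ h

end Pool.Agent.N490.PX2
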