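import Pool.Agent.N59.TT.Stm

/-!
# Extensions of free groups by permutations of the generators (part PER of project TT, helper490)
-/

set_option autoImplicit false

namespace Pool.Agent.N490.TT_PER

open Pool.Agent.Y110.FJ (permAut)
open Pool.Agent.N59.TT

/-! ### generalities -/

theorem F2_of_surj {K G : Type} [Group K] [Group G] (f : K →* G) (hf : Function.Surjective f)
    (h : F2 G) : F2 K := by
  obtain ⟨g, hg⟩ := h
  choose k hk using hf
  let F : FreeGroup (Fin 2) →* K := FreeGroup.lift fun i => k (g (FreeGroup.of i))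
  have hF : f.comp F = g := by
    apply FreeGroup.ext_hom
    intro i
    rw [MonoidHom.comp_apply]
    simp only [F, FreeGroup.lift_apply_of]
    exact hk _
  refine ⟨F, fun x y hxy => hg ?_⟩
  rw [← hF, MonoidHom.comp_apply, MonoidHom.comp_apply, hxy]

theorem F2_of_inj {K G : Type} [Group K] [Group G] (f : K →* G) (hf : Function.Injective f)
    (h : F2 K) : F2 G := by
  obtain ⟨g, hg⟩ := h
  exact ⟨f.comp g, hf.comp hg⟩

theorem VAb_of_finiteIndex {G : Type} [Group G] (H : Subgroup G) (hH : H.FiniteIndex)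
    (h : VAb H) : VAb G := by
  obtain ⟨A, hA, hc⟩ := h
  refine ⟨A.map H.subtype, ⟨?_⟩, ?_⟩
  · rw [Subgroup.index_map_subtype]
    exact mul_ne_zero hA.index_ne_zero hH.index_ne_zero
  · rintro _ ⟨x, hx, rfl⟩ _ ⟨y, hy, rfl⟩
    exact congrArg Subtype.val (hc x hx y hy)

theorem comap_finiteIndex {G K : Type} [Group G] [Group K] (f : G →* K) (A : Subgroup K)
    (hA : A.FiniteIndex) : (A.comap f).FiniteIndex := by
  refine ⟨?_⟩
  rw [Subgroup.index_comap]
  have h1 : A.IsFiniteRelIndex f.range := Subgroup.isFiniteRelIndex_of_finiteIndex (h := hA)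
  exact h1.relIndex_ne_zero

/-- the letters of a word -/
theorem exists_letters {X : Type} (w : FreeGroup X) :
    ∃ S : Finset X, w ∈ Subgroup.closure (FreeGroup.of '' (S : Set X)) := by
  classical
  induction w using FreeGroup.induction_on with
  | C1 => exact ⟨∅, one_mem _⟩
  | of x =>
    refine ⟨{x}, Subgroup.subset_closure ⟨x, by simp, rfl⟩⟩
  | inv_of x h =>
    obtain ⟨S, hS⟩ := h
    exact ⟨S, inv_mem hS⟩
  | mul x y hx hy =>
    obtain ⟨S, hS⟩ := hx
    obtain ⟨T, hT⟩ := hy
    refine ⟨S ∪ T, mul_mem ?_ ?_⟩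
    · exact Subgroup.closure_mono (Set.image_mono (by simp)) hS
    · exact Subgroup.closure_mono (Set.image_mono (by simp)) hT

section

variable {X P : Type} [Group P] [MulAction P X]

theorem permAut_of (p : P) (x : X) : permAut X P p (FreeGroup.of x) = FreeGroup.of (p • x) := by
  unfold permAut
  simp

/-- the letters outside `T` are killed -/
noncomputable def kil (T : Set X) [DecidablePred (· ∈ T)] : FreeGroup X →* FreeGroup X :=
  FreeGroup.lift fun x => if x ∈ T then FreeGroup.of x else 1

theorem kil_of (T : Set X) [DecidablePred (· ∈ T)] (x : X) :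
    kil T (FreeGroup.of x) = if x ∈ T then FreeGroup.of x else 1 := by
  unfold kil
  rw [FreeGroup.lift_apply_of]

theorem left_conj {a : FreeGroup X ⋊[permAut X P] P} {k : FreeGroup X}
    (h : a * SemidirectProduct.inl k = SemidirectProduct.inl k * a) :
    a.left * permAut X P a.right k = k * a.left := by
  have h1 := congrArg SemidirectProduct.left h
  simpa using h1

/-- the main step: all elements commute with `k ≠ 1`, and all commutators are powers of `k` -/
theorem main_step (hFN : S_FN) (hNE : S_NEU) {G : Type} [Group G]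
    (ψ : G →* FreeGroup X ⋊[permAut X P] P) (hψ : Function.Injective ψ) {k : FreeGroup X}
    (hk1 : k ≠ 1)
    (hkc : ∀ g : G, ψ g * SemidirectProduct.inl k = SemidirectProduct.inl k * ψ g)
    (hcomm : ∀ x y : G, ∃ m : ℤ, ψ (x * y * x⁻¹ * y⁻¹) = SemidirectProduct.inl (k ^ m)) :
    VAb G := by
  classical
  let _ : MulAction G X := MulAction.compHom X (SemidirectProduct.rightHom.comp ψ)
  have hsm : ∀ (g : G) (x : X), g • x = (ψ g).right • x := fun g x => rfl
  obtain ⟨S, hS⟩ := exists_letters k
  set Sf : Finset X := S.filter fun s => (MulAction.orbit G s).Finite with hSf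
  set Si : Finset X := S.filter fun s => ¬ (MulAction.orbit G s).Finite with hSi
  obtain ⟨q, hq⟩ := hNE G X Si fun s hs => (Finset.mem_filter.1 hs).2
  have hqS : ∀ s ∈ Si, q • s ∉ S := by
    intro s hs hqs
    apply hq s hs
    refine Finset.mem_filter.2 ⟨hqs, ?_⟩
    rw [MulAction.orbit_eq_iff.2 (MulAction.mem_orbit s q)]
    exact (Finset.mem_filter.1 hs).2
  let N : Subgroup G := ⨅ s : Sf, MulAction.stabilizer G (s : X)
  have hN : N.FiniteIndex := by
    refine Subgroup.finiteIndex_iInf fun s => ⟨?_⟩
    rw [MulAction.index_stabilizer]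
    have h1 : (MulAction.orbit G (s : X)).Finite := (Finset.mem_filter.1 s.2).2
    exact ((Set.ncard_pos h1).2 ⟨_, MulAction.mem_orbit_self _⟩).ne'
  have hNm : ∀ g ∈ N, ∀ s ∈ Sf, (ψ g).right • s = s := by
    intro g hg s hs
    have h1 := Subgroup.mem_iInf.1 hg ⟨s, hs⟩
    exact MulAction.mem_stabilizer_iff.1 h1
  set r : FreeGroup X →* FreeGroup X := kil (Sf : Set X) with hr
  set rS : FreeGroup X →* FreeGroup X := kil (S : Set X) with hrS
  -- invariance of `r`
  have hrp : ∀ p : P, (∀ s ∈ Sf, p • s = s) → ∀ w, r (permAut X P p w) = r w := by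
    intro p hp w
    have h1 : r.comp (permAut X P p : MulAut (FreeGroup X)).toMonoidHom = r := by
      apply FreeGroup.ext_hom
      intro x
      change r (permAut X P p (FreeGroup.of x)) = r (FreeGroup.of x)
      rw [permAut_of, hr, kil_of, kil_of]
      by_cases hx : x ∈ Sf
      · rw [hp x hx]
      · have h2 : p • x ∉ (Sf : Set X) := by
          intro h3
          have h4 := hp (p • x) (Finset.mem_coe.1 h3)
          have h5 : p • x = x := MulAction.injective p h4
          rw [h5] at h3
          exact hx (Finset.mem_coe.1 h3)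
        rw [if_neg h2, if_neg (fun h => hx (Finset.mem_coe.1 h))]
    exact DFunLike.congr_fun h1 w
  -- `r k ≠ 1`
  have hrk : r k ≠ 1 := by
    intro h1
    have h2 := left_conj (hkc q)
    have e1 : rS k = k := by
      have : Set.EqOn rS (MonoidHom.id (FreeGroup X)) (Subgroup.closure (FreeGroup.of '' (S : Set X)))
          := by
        apply MonoidHom.eqOn_closure
        rintro _ ⟨s, hs, rfl⟩
        rw [hrS, kil_of, if_pos hs]
        rfl
      exact this hS
    have e2 : rS (permAut X P (ψ q).right k) = rS (permAut X P (ψ q).right (r k)) := by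
      have : Set.EqOn (rS.comp (permAut X P (ψ q).right : MulAut (FreeGroup X)).toMonoidHom)
          ((rS.comp (permAut X P (ψ q).right : MulAut (FreeGroup X)).toMonoidHom).comp r)
          (Subgroup.closure (FreeGroup.of '' (S : Set X))) := by
        apply MonoidHom.eqOn_closure
        rintro _ ⟨s, hs, rfl⟩
        change rS (permAut X P (ψ q).right (FreeGroup.of s)) =
          rS (permAut X P (ψ q).right (r (FreeGroup.of s)))
        by_cases hf : s ∈ Sf
        · have h3 : r (FreeGroup.of s) = FreeGroup.of s := by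
            rw [hr, kil_of, if_pos (Finset.mem_coe.2 hf)]
          rw [h3]
        · have h3 : r (FreeGroup.of s) = 1 := by
            rw [hr, kil_of, if_neg (fun h => hf (Finset.mem_coe.1 h))]
          have h4 : s ∈ Si := by
            refine Finset.mem_filter.2 ⟨Finset.mem_coe.1 hs, fun h5 => hf ?_⟩
            exact Finset.mem_filter.2 ⟨Finset.mem_coe.1 hs, h5⟩
          have h5 := hqS s h4
          rw [hsm] at h5
          rw [h3, map_one, map_one, permAut_of, hrS, kil_of,
            if_neg (fun h => h5 (Finset.mem_coe.1 h))]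
      exact this hS
    rw [h1, map_one, map_one] at e2
    have h3 := congrArg rS h2
    rw [map_mul, map_mul, e2, e1, mul_one] at h3
    exact hk1 (by simpa using h3.symm)
  -- the homomorphism `ρ`
  have hρ : ∀ x ∈ N, ∀ y : G, r (ψ (x * y)).left = r (ψ x).left * r (ψ y).left := by
    intro x hx y
    rw [map_mul, SemidirectProduct.mul_left, map_mul, hrp _ (hNm x hx)]
  let ρ : N →* FreeGroup X := MonoidHom.mk' (fun x => r (ψ (x : G)).left)
    (fun x y => hρ x x.2 y)
  have hρc : ∀ x : N, ρ x * r k = r k * ρ x := by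
    intro x
    have h1 := congrArg r (left_conj (hkc (x : G)))
    rw [map_mul, map_mul, hrp _ (hNm _ x.2)] at h1
    exact h1
  refine ⟨N, hN, fun x hx y hy => ?_⟩
  obtain ⟨m, hm⟩ := hcomm x y
  have h1 : ρ ⟨x, hx⟩ * ρ ⟨y, hy⟩ * (ρ ⟨x, hx⟩)⁻¹ * (ρ ⟨y, hy⟩)⁻¹ = (r k) ^ m := by
    rw [← map_inv, ← map_inv, ← map_mul, ← map_mul, ← map_mul]
    change r (ψ (x * y * x⁻¹ * y⁻¹)).left = _
    rw [hm, SemidirectProduct.left_inl, map_zpow]
  have h2 : ρ ⟨x, hx⟩ * ρ ⟨y, hy⟩ = ρ ⟨y, hy⟩ * ρ ⟨x, hx⟩ := by
    apply hFN X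
    · rw [h1]
      exact (Commute.zpow_right (hρc ⟨x, hx⟩) m)
    · rw [h1]
      exact (Commute.zpow_right (hρc ⟨y, hy⟩) m)
  have h3 : (r k) ^ m = 1 := by
    rw [← h1, h2]
    group
  have h4 : m = 0 := by
    by_contra hm0
    exact hrk ((IsMulTorsionFree.zpow_eq_one_iff_left hm0).1 h3)
  rw [h4, zpow_zero, map_one] at hm
  have h5 : x * y * x⁻¹ * y⁻¹ = 1 := hψ (by rw [hm, map_one])
  calc x * y = x * y * x⁻¹ * y⁻¹ * (y * x) := by group
    _ = y * x := by rw [h5, one_mul]

end

theorem main (hFC : S_FC) (hFN : S_FN) (hNE : S_NEU) : S_PER := by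
  intro X P _ _ hP K _ hK hF φ
  have hI : ¬ F2 φ.range := fun h => hF (F2_of_surj φ.rangeRestrict φ.rangeRestrict_surjective h)
  let M : Subgroup (FreeGroup X) := φ.range.comap SemidirectProduct.inl
  have hM : ¬ F2 M := by
    intro h
    apply hI
    refine F2_of_inj (MonoidHom.mk' (fun w : M => (⟨SemidirectProduct.inl (w : FreeGroup X), w.2⟩ :
      φ.range)) (fun a b => Subtype.ext (map_mul _ _ _))) ?_ h
    intro a b hab
    exact Subtype.ext (SemidirectProduct.inl_injective (congrArg Subtype.val hab))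
  obtain ⟨k, hk⟩ := hFC X M hM
  have hkM : ∀ w : FreeGroup X, (SemidirectProduct.inl w : FreeGroup X ⋊[permAut X P] P) ∈ φ.range →
      ∃ m : ℤ, k ^ m = w := by
    intro w hw
    have h1 : w ∈ M := hw
    rw [hk] at h1
    exact Subgroup.mem_zpowers_iff.1 h1
  have hkI : (SemidirectProduct.inl k : FreeGroup X ⋊[permAut X P] P) ∈ φ.range := by
    have h1 : k ∈ M := by
      rw [hk]
      exact Subgroup.mem_zpowers k
    exact h1
  obtain ⟨A₀, hA₀, hA₀c⟩ := hP K hK hF (SemidirectProduct.rightHom.comp φ)
  let ρ0 : φ.range →* (SemidirectProduct.rightHom.comp φ).range :=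
    MonoidHom.mk' (fun g => ⟨SemidirectProduct.rightHom (g : FreeGroup X ⋊[permAut X P] P), by
      obtain ⟨x, hx⟩ := g.2
      exact ⟨x, by rw [MonoidHom.comp_apply, hx]⟩⟩) (fun a b => Subtype.ext (map_mul _ _ _))
  have hρ0 : ∀ g g' : φ.range, ρ0 g = ρ0 g' → (g : FreeGroup X ⋊[permAut X P] P).right =
      (g' : FreeGroup X ⋊[permAut X P] P).right := fun g g' h => congrArg Subtype.val h
  have hB := comap_finiteIndex ρ0 A₀ hA₀
  -- elements with trivial right part
  have hone : ∀ g : φ.range, (g : FreeGroup X ⋊[permAut X P] P).right = 1 →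
      ∃ m : ℤ, (g : FreeGroup X ⋊[permAut X P] P) = SemidirectProduct.inl (k ^ m) := by
    intro g hg
    have h1 : (g : FreeGroup X ⋊[permAut X P] P) =
        SemidirectProduct.inl (g : FreeGroup X ⋊[permAut X P] P).left := by
      apply SemidirectProduct.ext
      · rw [SemidirectProduct.left_inl]
      · rw [SemidirectProduct.right_inl, hg]
    obtain ⟨m, hm⟩ := hkM _ (by rw [← h1]; exact g.2)
    exact ⟨m, by rw [hm]; exact h1⟩
  have hcom : ∀ x ∈ A₀.comap ρ0, ∀ y ∈ A₀.comap ρ0, ∃ m : ℤ,
      ((x * y * x⁻¹ * y⁻¹ : φ.range) : FreeGroup X ⋊[permAut X P] P) =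
        SemidirectProduct.inl (k ^ m) := by
    intro x hx y hy
    apply hone
    have h1 : ρ0 (x * y * x⁻¹ * y⁻¹) = 1 := by
      rw [map_mul, map_mul, map_mul, map_inv, map_inv, hA₀c _ hx _ hy]
      group
    have h2 := hρ0 _ 1 (h1.trans (map_one ρ0).symm)
    exact h2
  by_cases hk1 : k = 1
  · refine ⟨A₀.comap ρ0, hB, fun x hx y hy => ?_⟩
    obtain ⟨m, hm⟩ := hcom x hx y hy
    rw [hk1, one_zpow, map_one] at hm
    have h5 : x * y * x⁻¹ * y⁻¹ = 1 := Subtype.ext hm
    calc x * y = x * y * x⁻¹ * y⁻¹ * (y * x) := by group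
      _ = y * x := by rw [h5, one_mul]
  · -- the centralizer of `k`
    let kI : φ.range := ⟨SemidirectProduct.inl k, hkI⟩
    let C : Subgroup φ.range := Subgroup.centralizer {kI}
    have hCm : ∀ g : φ.range, g ∈ C ↔ g * kI = kI * g := by
      intro g
      change g ∈ Subgroup.centralizer {kI} ↔ _
      rw [Subgroup.mem_centralizer_iff]
      constructor
      · intro h
        exact (h kI rfl).symm
      · intro h w hw
        rw [Set.mem_singleton_iff] at hw
        rw [hw]
        exact h.symm
    have hpow : ∀ m : ℤ, ((kI ^ m : φ.range) : FreeGroup X ⋊[permAut X P] P) =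
        SemidirectProduct.inl (k ^ m) := by
      intro m
      rw [map_zpow]
      rfl
    have hkI1 : ∀ m : ℤ, kI ^ m = 1 → m = 0 := by
      intro m hm
      have h1 := hpow m
      rw [hm] at h1
      have h2 : k ^ m = 1 := by
        apply SemidirectProduct.inl_injective (φ := permAut X P)
        rw [← h1, map_one]
        rfl
      by_contra hm0
      exact hk1 ((IsMulTorsionFree.zpow_eq_one_iff_left hm0).1 h2)
    have hconj : ∀ g : φ.range, ∃ m : ℤ, g * kI * g⁻¹ = kI ^ m := by
      intro g
      obtain ⟨m, hm⟩ := hone (g * kI * g⁻¹) (by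
        change SemidirectProduct.rightHom ((g : FreeGroup X ⋊[permAut X P] P) *
          SemidirectProduct.inl k * (g : FreeGroup X ⋊[permAut X P] P)⁻¹) = 1
        rw [map_mul, map_mul, SemidirectProduct.rightHom_inl, mul_one, map_inv, mul_inv_cancel])
      exact ⟨m, Subtype.ext (by rw [hm, hpow])⟩
    have hdich : ∀ g : φ.range, g * kI * g⁻¹ = kI ∨ g * kI * g⁻¹ = kI⁻¹ := by
      intro g
      obtain ⟨m, hm⟩ := hconj g
      obtain ⟨m', hm'⟩ := hconj g⁻¹
      rw [inv_inv] at hm'
      have h1 : kI = kI ^ (m * m') := by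
        calc kI = g⁻¹ * (g * kI * g⁻¹) * g := by group
          _ = g⁻¹ * kI ^ m * g := by rw [hm]
          _ = (g⁻¹ * kI * g) ^ m := by
            have := (conj_zpow (a := g⁻¹) (b := kI) (i := m))
            rw [inv_inv] at this
            exact this.symm
          _ = kI ^ (m * m') := by rw [hm', ← zpow_mul, mul_comm]
      have h2 : kI ^ (m * m' - 1) = 1 := by
        rw [zpow_sub_one, ← h1, mul_inv_cancel]
      have h3 := hkI1 _ h2
      have h4 : m * m' = 1 := by omega
      rcases Int.eq_one_or_neg_one_of_mul_eq_one h4 with h5 | h5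
      · left
        rw [hm, h5, zpow_one]
      · right
        rw [hm, h5, zpow_neg_one]
    have hC : C.FiniteIndex := by
      by_cases hall : ∀ g : φ.range, g ∈ C
      · have : C = ⊤ := by
          rw [eq_top_iff]
          exact fun g _ => hall g
        rw [this]
        infer_instance
      · push Not at hall
        obtain ⟨a, ha⟩ := hall
        have hinv : ∀ g : φ.range, g ∉ C → g * kI * g⁻¹ = kI⁻¹ := by
          intro g hg
          refine (hdich g).resolve_left fun h => hg ((hCm g).2 ?_)
          rwa [mul_inv_eq_iff_eq_mul] at h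
        have h2 : C.index = 2 := by
          rw [Subgroup.index_eq_two_iff_exists_notMem_and]
          refine ⟨a, ha, fun b => ?_⟩
          by_cases hb : b ∈ C
          · exact Or.inr hb
          · left
            rw [hCm]
            have h3 := hinv a ha
            have h4 := hinv b hb
            have h5 : b * kI⁻¹ * b⁻¹ = kI := by
              calc b * kI⁻¹ * b⁻¹ = (b * kI * b⁻¹)⁻¹ := by group
                _ = kI⁻¹⁻¹ := by rw [h4]
                _ = kI := inv_inv _
            calc b * a * kI = b * (a * kI * a⁻¹) * a := by group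
              _ = b * kI⁻¹ * a := by rw [h3]
              _ = (b * kI⁻¹ * b⁻¹) * (b * a) := by group
              _ = kI * (b * a) := by rw [h5]
        exact ⟨by rw [h2]; norm_num⟩
    let I1 : Subgroup φ.range := C ⊓ A₀.comap ρ0
    have hI1 : I1.FiniteIndex := by
      have := hC
      have := hB
      infer_instance
    refine VAb_of_finiteIndex I1 hI1 ?_
    refine main_step hFN hNE (φ.range.subtype.comp I1.subtype)
      (φ.range.subtype_injective.comp I1.subtype_injective) hk1 ?_ ?_
    · intro g
      have h1 := (hCm _).1 g.2.1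
      exact congrArg Subtype.val h1
    · intro x y
      exact hcom x.1 x.2.2 y.1 y.2.2

end Pool.Agent.N490.TT_PER
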